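import Mathlib

set_option autoImplicit false

namespace Pool.Agent.Results.MP_0ef770_co.Main

open Polynomial

/-- The equation `x - 2y = p(z)` is partition regular over the positive integers: every
colouring of the naturals with finitely many colours has positive integers `x, y, z` (not
necessarily distinct) of one colour with `x - 2y = p(z)`. -/
def PR (p : ℤ[X]) : Prop :=
  ∀ (r : ℕ) (c : ℕ → Fin r), ∃ x y z : ℕ, 1 ≤ x ∧ 1 ≤ y ∧ 1 ≤ z ∧ c x = c y ∧ c y = c z ∧
    (x : ℤ) - 2 * (y : ℤ) = p.eval (z : ℤ)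

/-- The colour `⌊log₂ (n²)⌋`. -/
def lam (n : ℕ) : ℕ := Nat.log 2 (n ^ 2)

lemma lam_ne (k n m : ℕ) (hn : 1 ≤ n) (h1 : 3 * n ≤ 2 * m) (h2 : m ^ 2 ≤ 2 ^ k * n ^ 2) :
    lam n % (k + 1) ≠ lam m % (k + 1) := by
  have hn2 : n ^ 2 ≠ 0 := by positivity
  have hm : 1 ≤ m := by omega
  have hm2 : m ^ 2 ≠ 0 := by positivity
  have hlow : lam n + 1 ≤ lam m := by
    unfold lam
    apply Nat.le_log_of_pow_le (by norm_num)
    have := Nat.pow_log_le_self 2 hn2
    calc 2 ^ (Nat.log 2 (n ^ 2) + 1) = 2 * 2 ^ (Nat.log 2 (n ^ 2)) := by ring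
      _ ≤ 2 * n ^ 2 := by omega
      _ ≤ m ^ 2 := by nlinarith
  have hup : lam m ≤ lam n + k := by
    unfold lam
    have h3 : n ^ 2 < 2 ^ (Nat.log 2 (n ^ 2) + 1) := Nat.lt_pow_succ_log_self (by norm_num) _
    have h4 : m ^ 2 < 2 ^ (Nat.log 2 (n ^ 2) + k + 1) := by
      calc m ^ 2 ≤ 2 ^ k * n ^ 2 := h2
        _ < 2 ^ k * 2 ^ (Nat.log 2 (n ^ 2) + 1) := by
            apply Nat.mul_lt_mul_of_pos_left h3 (by positivity)
        _ = 2 ^ (Nat.log 2 (n ^ 2) + k + 1) := by rw [← pow_add]; congr 1; omega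
    have := Nat.log_lt_of_lt_pow hm2 h4
    omega
  intro h
  obtain ⟨t, ht⟩ : ∃ t, lam m = lam n + t := ⟨lam m - lam n, by omega⟩
  have ht1 : 1 ≤ t := by omega
  have ht2 : t ≤ k := by omega
  rw [ht] at h
  have : (lam n + t) ≡ lam n [MOD (k+1)] := h.symm
  have h5 : (k + 1) ∣ t := by
    have := (Nat.modEq_iff_dvd' (Nat.le_add_right (lam n) t)).mp this.symm
    simpa using this
  have := Nat.le_of_dvd (by omega) h5
  omega

/-- finite van der Waerden -/
lemma vdW (κ : Type) [Finite κ] (k : ℕ) :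
    ∃ N : ℕ, ∀ c : ℕ → κ, ∃ a d : ℕ, 1 ≤ a ∧ 1 ≤ d ∧ a + k * d ≤ N ∧ ∀ j ≤ k, c (a + j * d) = c a := by
  obtain ⟨ι, hι, H⟩ := Combinatorics.Line.exists_mono_in_high_dimension (Fin (k + 1)) κ
  classical
  refine ⟨1 + k * Fintype.card ι, fun c => ?_⟩
  obtain ⟨l, col, hl⟩ := H (fun v => c (1 + ∑ i, (v i : ℕ)))
  set s : Finset ι := {i | l.idxFun i = none} with hs
  have hsum : ∀ x : Fin (k + 1), ∑ i, ((l x i : Fin (k+1)) : ℕ) = ∑ i, ((l 0 i : Fin (k+1)) : ℕ) + x * s.card := by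
    intro x
    have h1 : ∀ i, ((l x i : Fin (k+1)) : ℕ) = ((l 0 i : Fin (k+1)) : ℕ) + (if i ∈ s then (x : ℕ) else 0) := by
      intro i
      by_cases hi : i ∈ s
      · have hi' : l.idxFun i = none := by simpa [hs] using hi
        rw [if_pos hi, Combinatorics.Line.apply_none _ _ _ hi', Combinatorics.Line.apply_none _ _ _ hi']
        simp
      · have hi' : l.idxFun i ≠ none := by simpa [hs] using hi
        obtain ⟨y, hy⟩ := Option.ne_none_iff_exists.mp hi'
        rw [if_neg hi, Combinatorics.Line.apply_some hy.symm, Combinatorics.Line.apply_some hy.symm]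
        simp
    rw [Finset.sum_congr rfl (fun i _ => h1 i), Finset.sum_add_distrib]
    congr 1
    rw [Finset.sum_ite_mem, Finset.univ_inter, Finset.sum_const, smul_eq_mul, mul_comm]
  have hspos : 1 ≤ s.card := by
    obtain ⟨i, hi⟩ := l.proper
    exact Finset.card_pos.mpr ⟨i, by simp [hs, hi]⟩
  refine ⟨1 + ∑ i, ((l 0 i : Fin (k+1)) : ℕ), s.card, by omega, hspos, ?_, ?_⟩
  · have h2 := hsum (Fin.last k)
    have h3 : ∑ i, ((l (Fin.last k) i : Fin (k+1)) : ℕ) ≤ ∑ _i : ι, k :=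
      Finset.sum_le_sum (fun i _ => Nat.lt_succ_iff.mp (Fin.is_lt _))
    rw [Finset.sum_const, smul_eq_mul, Finset.card_univ] at h3
    simp only [Fin.val_last] at h2
    rw [mul_comm k (Fintype.card ι)]
    omega
  · intro j hj
    have h4 := hl ⟨j, Nat.lt_succ_of_le hj⟩
    have h5 := hl 0
    simp only at h4 h5
    rw [hsum] at h4
    simp only at h4
    rw [add_assoc, h4, h5]

/-- Brauer-type: finite version -/
lemma brauer (κ : Type) [Finite κ] (k m : ℕ) (hk : 1 ≤ k) (hm : 1 ≤ m) (s : ℕ) :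
    ∃ N : ℕ, 1 ≤ N ∧ ∀ (c : ℕ → κ) (U : Finset κ), U.card = s →
      (∀ i, 1 ≤ i → i ≤ N → c i ∈ U) →
      ∃ a d : ℕ, 1 ≤ a ∧ 1 ≤ d ∧ m * d ≤ N ∧ a + k * d ≤ N ∧
        ∀ j ≤ k, c (a + j * d) = c (m * d) := by
  classical
  induction s with
  | zero =>
    refine ⟨1, le_rfl, fun c U hU h => ?_⟩
    have := h 1 le_rfl le_rfl
    rw [Finset.card_eq_zero.mp hU] at this
    simp at this
  | succ s ih =>
    obtain ⟨N', hN'1, hN'⟩ := ih
    obtain ⟨N1, hN1⟩ := vdW κ (k * N')
    refine ⟨max (max N1 (m * (N' * N1))) 1, le_max_right _ _, fun c U hU h => ?_⟩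
    obtain ⟨a, D, ha, hD, hle, hmono⟩ := hN1 c
    have hDle : D ≤ N1 := by
      have h1 : 1 ≤ k * N' := Nat.mul_pos hk hN'1
      have h2 : 1 * D ≤ k * N' * D := Nat.mul_le_mul_right _ h1
      omega
    have hiD : ∀ i, i ≤ N' → m * (i * D) ≤ m * (N' * N1) := fun i hi =>
      Nat.mul_le_mul_left _ (Nat.mul_le_mul hi hDle)
    have hposD : ∀ i, 1 ≤ i → 1 ≤ i * D := fun i hi => Nat.mul_pos hi hD
    have hposmD : ∀ i, 1 ≤ i → 1 ≤ m * (i * D) := fun i hi => Nat.mul_pos hm (hposD i hi)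
    have haN1 : a ≤ N1 := le_trans (Nat.le_add_right _ _) hle
    by_cases hex : ∃ i, 1 ≤ i ∧ i ≤ N' ∧ c (m * (i * D)) = c a
    · obtain ⟨i, hi1, hi2, hi3⟩ := hex
      refine ⟨a, i * D, ha, hposD i hi1, ?_, ?_, ?_⟩
      · exact le_trans (hiD i hi2) (le_trans (le_max_right _ _) (le_max_left _ _))
      · have : k * (i * D) ≤ k * N' * D := by
          rw [← mul_assoc]
          exact Nat.mul_le_mul_right _ (Nat.mul_le_mul_left _ hi2)
        have h3 : a + k * (i * D) ≤ N1 := by omega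
        exact le_trans h3 (le_trans (le_max_left _ _) (le_max_left _ _))
      · intro j hj
        rw [hi3, ← mul_assoc]
        exact hmono (j * i) (Nat.mul_le_mul hj hi2)
    · have haU : c a ∈ U := h a ha (le_trans haN1 (le_trans (le_max_left _ _) (le_max_left _ _)))
      have hcard : (U.erase (c a)).card = s := by
        rw [Finset.card_erase_of_mem haU, hU]; rfl
      obtain ⟨a', d', ha', hd', hmd', hakd', hmono'⟩ := hN' (fun i => c (m * (i * D)))
        (U.erase (c a)) hcard (fun i hi1 hi2 => by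
          refine Finset.mem_erase.mpr ⟨fun heq => hex ⟨i, hi1, hi2, heq⟩, ?_⟩
          exact h _ (hposmD i hi1) (le_trans (hiD i hi2)
            (le_trans (le_max_right _ _) (le_max_left _ _))))
      refine ⟨m * (a' * D), m * (d' * D), hposmD a' ha', hposmD d' hd', ?_, ?_, ?_⟩
      · have e1 : m * (m * (d' * D)) = m * ((m * d') * D) := by ring
        rw [e1]
        exact le_trans (hiD _ hmd') (le_trans (le_max_right _ _) (le_max_left _ _))
      · have e1 : m * (a' * D) + k * (m * (d' * D)) = m * ((a' + k * d') * D) := by ring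
        rw [e1]
        exact le_trans (hiD _ hakd') (le_trans (le_max_right _ _) (le_max_left _ _))
      · intro j hj
        have e1 : m * (a' * D) + j * (m * (d' * D)) = m * ((a' + j * d') * D) := by ring
        have e2 : m * (m * (d' * D)) = m * ((m * d') * D) := by ring
        rw [e1, e2]
        exact hmono' j hj

/-- Infinite version: in every finite colouring of `ℕ` there are `a, d ≥ 1` such that
`m * d` and all `a + j * d`, `j ≤ k`, have the same colour. -/
lemma brauer_inf (r k m : ℕ) (hk : 1 ≤ k) (hm : 1 ≤ m) (c : ℕ → Fin r) :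
    ∃ a d : ℕ, 1 ≤ a ∧ 1 ≤ d ∧ ∀ j ≤ k, c (a + j * d) = c (m * d) := by
  obtain ⟨N, -, hN⟩ := brauer (Fin r) k m hk hm (Finset.univ : Finset (Fin r)).card
  obtain ⟨a, d, ha, hd, -, -, h⟩ := hN c Finset.univ rfl (fun i _ _ => Finset.mem_univ _)
  exact ⟨a, d, ha, hd, h⟩

lemma PR_X : PR (X : ℤ[X]) := by
  intro r c
  obtain ⟨a, d, ha, hd, h⟩ := brauer_inf r 2 1 (by norm_num) le_rfl c
  refine ⟨a + 2 * d, d, a, by omega, hd, ha, ?_, ?_, ?_⟩
  · have := h 2 le_rfl
    rwa [one_mul] at this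
  · have := h 0 (by norm_num)
    rw [one_mul, zero_mul, add_zero] at this
    exact this.symm
  · simp

lemma PR_neg2X : PR (-2 * X : ℤ[X]) := by
  intro r c
  obtain ⟨a, d, ha, hd, h⟩ := brauer_inf r 1 2 le_rfl (by norm_num) c
  refine ⟨2 * d, a + d, a, by omega, by omega, ha, ?_, ?_, ?_⟩
  · have := h 1 le_rfl
    rw [one_mul] at this
    exact this.symm
  · have h0 := h 0 (by norm_num)
    have h1 := h 1 le_rfl
    rw [one_mul] at h1
    rw [zero_mul, add_zero] at h0
    rw [h1, h0]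
  · simp; ring

lemma PR_fix (p : ℤ[X]) (n : ℕ) (hn : 1 ≤ n) (h : p.eval (n : ℤ) = -n) : PR p := by
  intro r c
  refine ⟨n, n, n, hn, hn, hn, rfl, rfl, ?_⟩
  rw [h]; ring

lemma cast_eq (q : ℕ) (hq : q.Prime) (n : ℕ) (hn : 1 ≤ n) (w : ℕ)
    (hw : (ordCompl[q] n) % q = w % q) :
    (q ∣ n ∧ (n : ZMod q) = 0) ∨ (¬ q ∣ n ∧ (n : ZMod q) = (w : ZMod q)) := by
  by_cases h : q ∣ n
  · left
    exact ⟨h, (ZMod.natCast_eq_zero_iff _ _).mpr h⟩
  · right
    refine ⟨h, ?_⟩
    have h1 : ordCompl[q] n = n := by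
      rw [Nat.factorization_eq_zero_of_not_dvd h]; simp
    rw [h1] at hw
    exact (ZMod.natCast_eq_natCast_iff _ _ _).mpr hw

lemma descent (c : ℤ) (h1 : c ≠ 1) (h2 : c ≠ -1) (h3 : c ≠ -2) (q : ℕ) (hq : q.Prime)
    (hqc : c.natAbs + 3 < q) (w : ℕ) (N : ℕ) :
    ∀ x y z : ℕ, x ≤ N → 1 ≤ x → 1 ≤ y → 1 ≤ z → (c = 0 → z = x) →
      (ordCompl[q] x) % q = w % q → (ordCompl[q] y) % q = w % q → (ordCompl[q] z) % q = w % q →
      (x : ℤ) - 2 * (y : ℤ) = c * (z : ℤ) → False := by
  haveI : Fact q.Prime := ⟨hq⟩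
  have hdiv : ∀ n, ordCompl[q] (q * n) = ordCompl[q] n := by
    intro n
    have := Nat.ordCompl_self_pow_mul n 1 hq
    rwa [pow_one] at this
  induction N with
  | zero => intro x y z hx hx1; omega
  | succ N ih =>
    intro x y z hxN hx hy hz hc0 cx cy cz heq
    by_cases hall : q ∣ x ∧ q ∣ y ∧ q ∣ z
    · obtain ⟨⟨x', rfl⟩, ⟨y', rfl⟩, ⟨z', rfl⟩⟩ := hall
      have hq2 := hq.two_le
      have hx' : 1 ≤ x' := by
        rcases Nat.eq_zero_or_pos x' with h | h
        · subst h; omega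
        · exact h
      have hy' : 1 ≤ y' := by
        rcases Nat.eq_zero_or_pos y' with h | h
        · subst h; omega
        · exact h
      have hz' : 1 ≤ z' := by
        rcases Nat.eq_zero_or_pos z' with h | h
        · subst h; omega
        · exact h
      refine ih x' y' z' ?_ hx' hy' hz' ?_ ?_ ?_ ?_ ?_
      · nlinarith
      · intro hc
        exact Nat.eq_of_mul_eq_mul_left hq.pos (hc0 hc)
      · rw [hdiv] at cx; exact cx
      · rw [hdiv] at cy; exact cy
      · rw [hdiv] at cz; exact cz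
      · have hq0 : (q : ℤ) ≠ 0 := by exact_mod_cast hq.ne_zero
        apply mul_left_cancel₀ hq0
        push_cast at heq
        linarith
    · have hwne : (w : ZMod q) ≠ 0 := by
        have h := Nat.not_dvd_ordCompl hq (n := x) (by omega)
        intro h0
        rw [ZMod.natCast_eq_zero_iff] at h0
        apply h
        rw [Nat.dvd_iff_mod_eq_zero] at h0 ⊢
        rw [cx, h0]
      have key : ∀ t : ℤ, t ≠ 0 → t.natAbs < q → (w : ZMod q) * (t : ZMod q) ≠ 0 := by
        intro t ht htq h0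
        rcases mul_eq_zero.mp h0 with h | h
        · exact hwne h
        · rw [ZMod.intCast_zmod_eq_zero_iff_dvd] at h
          have h5 : q ∣ t.natAbs := by
            have := Int.natAbs_dvd_natAbs.mpr h
            simpa using this
          have h6 : t.natAbs ≠ 0 := Int.natAbs_ne_zero.mpr ht
          exact absurd (Nat.le_of_dvd (Nat.pos_of_ne_zero h6) h5) (not_le.mpr htq)
      have heq' : (x : ZMod q) - 2 * (y : ZMod q) = (c : ZMod q) * (z : ZMod q) := by
        have := congrArg (Int.cast : ℤ → ZMod q) heq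
        push_cast at this
        exact this
      by_cases hc : c = 0
      · have hzx := hc0 hc
        subst hzx
        subst hc
        rcases cast_eq q hq z hz w cz with ⟨dx, ex⟩ | ⟨dx, ex⟩ <;>
        rcases cast_eq q hq y hy w cy with ⟨dy, ey⟩ | ⟨dy, ey⟩ <;>
        rw [ex, ey] at heq'
        · exact hall ⟨dx, dy, dx⟩
        · apply key (-2) (by norm_num) (by norm_num; omega)
          push_cast; push_cast at heq'; linear_combination heq'
        · apply key 1 (by norm_num) (by norm_num; omega)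
          push_cast; push_cast at heq'; linear_combination heq'
        · apply key (-1) (by norm_num) (by norm_num; omega)
          push_cast; push_cast at heq'; linear_combination heq'
      · rcases cast_eq q hq x hx w cx with ⟨dx, ex⟩ | ⟨dx, ex⟩ <;>
        rcases cast_eq q hq y hy w cy with ⟨dy, ey⟩ | ⟨dy, ey⟩ <;>
        rcases cast_eq q hq z hz w cz with ⟨dz, ez⟩ | ⟨dz, ez⟩ <;>
        rw [ex, ey, ez] at heq'
        · exact hall ⟨dx, dy, dz⟩
        · apply key (-c) (by omega) (by omega)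
          push_cast; linear_combination heq'
        · apply key (-2) (by norm_num) (by norm_num; omega)
          push_cast; linear_combination heq'
        · apply key (-2 - c) (by omega) (by omega)
          push_cast; linear_combination heq'
        · apply key 1 (by norm_num) (by norm_num; omega)
          push_cast; linear_combination heq'
        · apply key (1 - c) (by omega) (by omega)
          push_cast; linear_combination heq'
        · apply key (-1) (by norm_num) (by norm_num; omega)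
          push_cast; linear_combination heq'
        · apply key (-1 - c) (by omega) (by omega)
          push_cast; linear_combination heq'

lemma linear_neg (c : ℤ) (h1 : c ≠ 1) (h2 : c ≠ -1) (h3 : c ≠ -2) : ¬ PR (C c * X) := by
  intro hPR
  obtain ⟨q, hq1, hq⟩ := Nat.exists_infinite_primes (c.natAbs + 4)
  obtain ⟨x, y, z, hx, hy, hz, cxy, cyz, heq⟩ := hPR q
    (fun n => ⟨(ordCompl[q] n) % q, Nat.mod_lt _ hq.pos⟩)
  have cxy' : (ordCompl[q] x) % q = (ordCompl[q] y) % q := by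
    simpa [Fin.ext_iff] using cxy
  have cyz' : (ordCompl[q] y) % q = (ordCompl[q] z) % q := by
    simpa [Fin.ext_iff] using cyz
  simp only [eval_mul, eval_C, eval_X] at heq
  by_cases hc : c = 0
  · refine descent c h1 h2 h3 q hq (by omega) (ordCompl[q] x) x x y x le_rfl hx hy hx
      (fun _ => rfl) rfl cxy'.symm rfl ?_
    rw [heq, hc]; simp
  · exact descent c h1 h2 h3 q hq (by omega) (ordCompl[q] x) x x y z le_rfl hx hy hz
      (fun h => absurd h hc) rfl cxy'.symm (cxy'.trans cyz').symm heq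

/-- growth of a polynomial of degree at least 2 -/
lemma growth (p : ℤ[X]) (hd : 2 ≤ p.natDegree) :
    ∃ A Z : ℕ, 1 ≤ A ∧ ∀ z : ℕ, Z ≤ z →
      (z ^ p.natDegree ≤ 2 * (p.eval (z : ℤ)).natAbs ∧
        (p.eval (z : ℤ)).natAbs ≤ A * z ^ p.natDegree) := by
  set P : ℝ[X] := p.map (Int.castRingHom ℝ) with hP
  have hinj : Function.Injective (Int.castRingHom ℝ) := Int.cast_injective
  have hdeg : P.natDegree = p.natDegree := Polynomial.natDegree_map_eq_of_injective hinj p
  have hlc : P.leadingCoeff = (p.leadingCoeff : ℝ) := by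
    rw [hP, Polynomial.leadingCoeff_map_of_injective hinj]; simp
  have hp0 : p ≠ 0 := by
    intro h; rw [h] at hd; simp at hd
  have hlc0 : p.leadingCoeff ≠ 0 := Polynomial.leadingCoeff_ne_zero.mpr hp0
  have heq := P.isEquivalent_atTop_lead
  have h1 := heq.isLittleO
  rw [Asymptotics.isLittleO_iff] at h1
  have h2 := h1 (c := 1 / 2) (by norm_num)
  rw [Filter.eventually_atTop] at h2
  obtain ⟨T, hT⟩ := h2
  obtain ⟨Z, hZ⟩ := exists_nat_ge T
  refine ⟨2 * p.leadingCoeff.natAbs, Z, ?_, ?_⟩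
  · have := Int.natAbs_ne_zero.mpr hlc0; omega
  intro z hz
  have h3 := hT (z : ℝ) (hZ.trans (by exact_mod_cast hz))
  simp only [Pi.sub_apply] at h3
  have hev : P.eval (z : ℝ) = ((p.eval (z : ℤ) : ℤ) : ℝ) := by
    rw [hP, Polynomial.eval_map, Polynomial.eval₂_eq_eval_map]
    have := Polynomial.eval_intCast_map (Int.castRingHom ℝ) p (z : ℤ)
    simpa using this
  rw [hev, hlc, hdeg] at h3
  rw [Real.norm_eq_abs, Real.norm_eq_abs, abs_mul] at h3
  have hzp : |((z : ℝ)) ^ p.natDegree| = (z : ℝ) ^ p.natDegree := abs_of_nonneg (by positivity)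
  rw [hzp] at h3
  have ha1 : (1 : ℝ) ≤ |(p.leadingCoeff : ℝ)| := by
    have : (1 : ℤ) ≤ |p.leadingCoeff| := Int.one_le_abs hlc0
    exact_mod_cast this
  have hzn : (0 : ℝ) ≤ (z : ℝ) ^ p.natDegree := by positivity
  have h4 : |(p.leadingCoeff : ℝ) * (z : ℝ) ^ p.natDegree| =
      |(p.leadingCoeff : ℝ)| * (z : ℝ) ^ p.natDegree := by rw [abs_mul, hzp]
  have h5 := abs_sub_abs_le_abs_sub ((p.leadingCoeff : ℝ) * (z : ℝ) ^ p.natDegree)
    ((p.eval (z : ℤ) : ℤ) : ℝ)
  have h6 := abs_sub_abs_le_abs_sub ((p.eval (z : ℤ) : ℤ) : ℝ)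
    ((p.leadingCoeff : ℝ) * (z : ℝ) ^ p.natDegree)
  rw [abs_sub_comm] at h5
  rw [h4] at h5 h6
  have e1 : (((p.eval (z : ℤ)).natAbs : ℕ) : ℝ) = |((p.eval (z : ℤ) : ℤ) : ℝ)| := by
    rw [Nat.cast_natAbs]; simp
  have e2 : ((p.leadingCoeff.natAbs : ℕ) : ℝ) = |((p.leadingCoeff : ℤ) : ℝ)| := by
    rw [Nat.cast_natAbs]; simp
  constructor
  · have : ((z ^ p.natDegree : ℕ) : ℝ) ≤ ((2 * (p.eval (z : ℤ)).natAbs : ℕ) : ℝ) := by
      push_cast [e1]
      nlinarith
    exact_mod_cast this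
  · have : (((p.eval (z : ℤ)).natAbs : ℕ) : ℝ) ≤
        ((2 * p.leadingCoeff.natAbs * z ^ p.natDegree : ℕ) : ℝ) := by
      push_cast [e1, e2]
      nlinarith [mul_nonneg (le_trans zero_le_one ha1) hzn]
    exact_mod_cast this

/-- `w` comparable with `z ^ D`: the double logarithm colouring separates `w` and `z`. -/
lemma loglog (D A : ℕ) (hD : 2 ≤ D) (hA : 1 ≤ A) :
    ∃ Z : ℕ, ∀ z w : ℕ, Z ≤ z → z ^ D ≤ 4 * w → w ≤ 2 * A * z ^ D →
      1 ≤ Nat.log 2 z ∧ 3 * Nat.log 2 z ≤ 2 * Nat.log 2 w ∧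
        Nat.log 2 w ≤ (D + 1) * Nat.log 2 z := by
  set E := D + Nat.log 2 (2 * A) + 1 with hE
  refine ⟨2 ^ (E + 4), fun z w hz h1 h2 => ?_⟩
  have hzpos : z ≠ 0 := by
    have : 0 < 2 ^ (E + 4) := by positivity
    omega
  have hL : E + 4 ≤ Nat.log 2 z := Nat.le_log_of_pow_le (by norm_num) hz
  have hz1 : 2 ^ (Nat.log 2 z) ≤ z := Nat.pow_log_le_self 2 hzpos
  have hz2 : z < 2 ^ (Nat.log 2 z + 1) := Nat.lt_pow_succ_log_self (by norm_num) z
  have hw0 : w ≠ 0 := by
    intro h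
    subst h
    have : 0 < z ^ D := by positivity
    omega
  have hw1 : 2 ^ (Nat.log 2 w) ≤ w := Nat.pow_log_le_self 2 hw0
  have hw2 : w < 2 ^ (Nat.log 2 w + 1) := Nat.lt_pow_succ_log_self (by norm_num) w
  set L := Nat.log 2 z with hLdef
  set W := Nat.log 2 w with hWdef
  have hlow : D * L < W + 3 := by
    have : 2 ^ (D * L) < 2 ^ (W + 3) := by
      calc 2 ^ (D * L) = (2 ^ L) ^ D := by rw [← pow_mul, mul_comm]
        _ ≤ z ^ D := Nat.pow_le_pow_left hz1 D
        _ ≤ 4 * w := h1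
        _ < 4 * 2 ^ (W + 1) := by omega
        _ = 2 ^ (W + 3) := by rw [pow_succ, pow_add]; ring
    exact (Nat.pow_lt_pow_iff_right (by norm_num)).mp this
  have h2A : 2 * A < 2 ^ (Nat.log 2 (2 * A) + 1) := Nat.lt_pow_succ_log_self (by norm_num) _
  have hup : W < Nat.log 2 (2 * A) + 1 + D * (L + 1) := by
    have : 2 ^ W < 2 ^ (Nat.log 2 (2 * A) + 1 + D * (L + 1)) := by
      calc 2 ^ W ≤ w := hw1
        _ ≤ 2 * A * z ^ D := h2
        _ ≤ 2 * A * (2 ^ (L + 1)) ^ D :=
            Nat.mul_le_mul_left _ (Nat.pow_le_pow_left hz2.le D)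
        _ < 2 ^ (Nat.log 2 (2 * A) + 1) * (2 ^ (L + 1)) ^ D :=
            Nat.mul_lt_mul_of_pos_right h2A (by positivity)
        _ = 2 ^ (Nat.log 2 (2 * A) + 1 + D * (L + 1)) := by
            rw [← pow_mul, ← pow_add, mul_comm (L + 1) D]
    exact (Nat.pow_lt_pow_iff_right (by norm_num)).mp this
  refine ⟨by omega, ?_, ?_⟩
  · nlinarith
  · nlinarith

/-- no new partition regular equations in degree at least two -/
lemma high_neg (p : ℤ[X]) (hd : 2 ≤ p.natDegree)
    (hfix : ¬ ∃ n : ℕ, 1 ≤ n ∧ p.eval (n : ℤ) = -n) : ¬ PR p := by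
  obtain ⟨A, Z1, hA, hgrow⟩ := growth p hd
  obtain ⟨Z2, hll⟩ := loglog p.natDegree A hd hA
  set D := p.natDegree with hDdef
  set N := max (max Z1 Z2) 1 with hN
  set k := 2 * (D + 1) with hk
  intro hPR
  -- the colouring
  let col : ℕ → (Fin N ⊕ (Fin (k + 1) × Fin (k + 1))) := fun n =>
    if h : n < N then Sum.inl ⟨n, h⟩
    else Sum.inr (⟨lam n % (k + 1), Nat.mod_lt _ (Nat.succ_pos _)⟩,
      ⟨lam (Nat.log 2 n) % (k + 1), Nat.mod_lt _ (Nat.succ_pos _)⟩)
  obtain ⟨x, y, z, hx, hy, hz, cxy, cyz, heq⟩ :=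
    hPR (Fintype.card (Fin N ⊕ (Fin (k + 1) × Fin (k + 1))))
      (fun n => Fintype.equivFin _ (col n))
  replace cxy : col x = col y := (Fintype.equivFin _).injective cxy
  replace cyz : col y = col z := (Fintype.equivFin _).injective cyz
  -- two numbers of the same colour are equal or both large with equal log colours
  have hcol : ∀ a b : ℕ, col a = col b → a = b ∨ (N ≤ a ∧ N ≤ b ∧
      lam a % (k + 1) = lam b % (k + 1) ∧
      lam (Nat.log 2 a) % (k + 1) = lam (Nat.log 2 b) % (k + 1)) := by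
    intro a b hab
    simp only [col] at hab
    split_ifs at hab with ha hb hb
    · left
      simpa [Fin.ext_iff] using hab
    · right
      simp only [Sum.inr.injEq, Prod.mk.injEq, Fin.mk.injEq] at hab
      exact ⟨not_lt.mp ha, not_lt.mp hb, hab.1, hab.2⟩
  have hpow : (D + 1) ^ 2 ≤ 2 ^ k := by
    have : D + 1 ≤ 2 ^ (D + 1) := Nat.lt_two_pow_self.le
    calc (D + 1) ^ 2 ≤ (2 ^ (D + 1)) ^ 2 := Nat.pow_le_pow_left this 2
      _ = 2 ^ k := by rw [← pow_mul, mul_comm]
  have hpow4 : 16 ≤ 2 ^ k := by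
    calc 16 = 2 ^ 4 := by norm_num
      _ ≤ 2 ^ k := Nat.pow_le_pow_right (by norm_num) (by omega)
  -- ratio between 3/2 and 4 is impossible
  have hratio : ∀ a b : ℕ, 1 ≤ a → 3 * a ≤ 2 * b → b ≤ 4 * a → col a = col b → False := by
    intro a b ha h1 h2 hab
    rcases hcol a b hab with h | ⟨-, -, h, -⟩
    · omega
    · refine lam_ne k a b ha h1 ?_ h
      calc b ^ 2 ≤ (4 * a) ^ 2 := Nat.pow_le_pow_left h2 2
        _ = 16 * a ^ 2 := by ring
        _ ≤ 2 ^ k * a ^ 2 := Nat.mul_le_mul_right _ hpow4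
  -- all of x, y, z are equal, or all are large
  by_cases hzN : z < N
  · have hyz : y = z := by
      rcases hcol y z cyz with h | ⟨_, h, _⟩
      · exact h
      · omega
    have hxz : x = z := by
      rcases hcol x z (cxy.trans cyz) with h | ⟨_, h, _⟩
      · exact h
      · omega
    apply hfix
    refine ⟨z, hz, ?_⟩
    rw [hyz, hxz] at heq
    linarith
  have hzN : N ≤ z := not_lt.mp hzN
  have hzZ1 : Z1 ≤ z := le_trans (le_trans (le_max_left _ _) (le_max_left _ _)) hzN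
  have hzZ2 : Z2 ≤ z := le_trans (le_trans (le_max_right _ _) (le_max_left _ _)) hzN
  obtain ⟨g1, g2⟩ := hgrow z hzZ1
  -- loglog exclusion
  have hll' : ∀ w : ℕ, (p.eval (z : ℤ)).natAbs ≤ 2 * w → w ≤ 2 * (p.eval (z : ℤ)).natAbs →
      col w = col z → False := by
    intro w h1 h2 hw
    obtain ⟨e1, e2, e3⟩ := hll z w hzZ2 (by omega) (by nlinarith)
    rcases hcol w z hw with h | ⟨-, -, -, h⟩
    · subst h
      omega
    · refine lam_ne k (Nat.log 2 z) (Nat.log 2 w) e1 e2 ?_ h.symm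
      calc (Nat.log 2 w) ^ 2 ≤ ((D + 1) * Nat.log 2 z) ^ 2 := Nat.pow_le_pow_left e3 2
        _ = (D + 1) ^ 2 * (Nat.log 2 z) ^ 2 := by ring
        _ ≤ 2 ^ k * (Nat.log 2 z) ^ 2 := Nat.mul_le_mul_right _ hpow
  rcases le_or_gt 0 (p.eval (z : ℤ)) with hpos | hneg
  · -- x = 2 y + q
    by_cases hx4 : x ≤ 4 * y
    · exact hratio y x hy (by omega) hx4 cxy.symm
    · exact hll' x (by omega) (by omega) (cxy.trans cyz)
  · by_cases hy2 : y ≤ 2 * (p.eval (z : ℤ)).natAbs
    · exact hll' y (by omega) hy2 cyz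
    · exact hratio y x hy (by omega) (by omega) cxy.symm

/-- **Answer to Q1.** For `p ∈ ℤ[t]` with `p(0) = 0` the equation `x - 2y = p(z)` is partition
regular if and only if `p = t`, or `p = -2t`, or `p(n) = -n` for some positive integer `n`. -/
theorem result (p : ℤ[X]) (hp : p.eval 0 = 0) :
    PR p ↔ (p = X ∨ p = -2 * X ∨ ∃ n : ℕ, 1 ≤ n ∧ p.eval (n : ℤ) = -(n : ℤ)) := by
  constructor
  · intro hPR
    by_contra hcon
    push Not at hcon
    obtain ⟨hX, h2X, hfix⟩ := hcon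
    rcases le_or_gt 2 p.natDegree with hd | hd
    · exact high_neg p hd (fun ⟨n, hn, h⟩ => hfix n hn h) hPR
    · obtain ⟨a, b, hab⟩ := Polynomial.exists_eq_X_add_C_of_natDegree_le_one
        (Nat.lt_succ_iff.mp hd)
      have hb : b = 0 := by
        rw [hab] at hp
        simpa using hp
      subst hb
      rw [C_0, add_zero] at hab
      subst hab
      refine linear_neg a ?_ ?_ ?_ hPR
      · rintro rfl
        exact hX (by simp)
      · rintro rfl
        exact hfix 1 le_rfl (by simp)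
      · rintro rfl
        exact h2X (by simp)
  · rintro (rfl | rfl | ⟨n, hn, h⟩)
    · exact PR_X
    · exact PR_neg2X
    · exact PR_fix p n hn h

end Pool.Agent.Results.MP_0ef770_co.Main
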